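import Pool.Agent.Q49.PN.Core

/-!
# Three-level compositions of forms do not fill

If the number of parameters (after normalisation) is small, the coefficient vectors of the
three-level compositions of forms satisfy a polynomial relation.
-/

namespace Q49.PN

open MvPolynomial

/-- more polynomials than variables are algebraically dependent -/
theorem exists_rel {ι κ : Type} [Fintype ι] [Fintype κ] (h : Fintype.card ι < Fintype.card κ)
    (φ : κ → MvPolynomial ι ℂ) : ∃ Q : MvPolynomial κ ℂ, Q ≠ 0 ∧ aeval φ Q = 0 := by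
  by_contra hcon
  push Not at hcon
  have hai : AlgebraicIndependent ℂ φ := by
    rw [algebraicIndependent_iff]
    intro p hp
    by_contra h0
    exact hcon p h0 hp
  have h1 := hai.cardinalMk_le_trdeg
  rw [MvPolynomial.trdeg_of_isDomain, Cardinal.lift_id, Cardinal.mk_fintype,
    Cardinal.mk_fintype] at h1
  exact absurd (by exact_mod_cast h1) (not_le.2 h)

theorem eval_aeval {ι κ : Type} (z : ι → ℂ) (φ : κ → MvPolynomial ι ℂ) (q : MvPolynomial κ ℂ) :
    eval z (aeval φ q) = eval (fun m => eval z (φ m)) q := by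
  induction q using MvPolynomial.induction_on with
  | C a => simp
  | add p q hp hq => simp only [map_add, hp, hq]
  | mul_X p n hp => simp only [map_mul, hp, aeval_X, eval_X]

/-- three-level composition of forms -/
noncomputable def P3 {R : Type} [CommRing R] {m1 n1 m2 n2 n3 : ℕ}
    (α : Fin m1 → Sym (Fin 2) n1 → R) (β : Fin m2 → Sym (Fin m1) n2 → R)
    (γ : Sym (Fin m2) n3 → R) : MvPolynomial ℕ R :=
  fm γ fun j => (fm (β j) fun i => (fm (α i) fun b : Fin 2 => (X (b : ℕ) : MvPolynomial ℕ R)) ^ 2) ^ 2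

theorem fm_map {R R' B B' : Type} [CommRing R] [CommRing R'] [CommRing B] [CommRing B']
    [Algebra R B] [Algebra R' B'] (f : R →+* R') (g : B →+* B')
    (h : ∀ r, g (algebraMap R B r) = algebraMap R' B' (f r)) {m n : ℕ} (t : Sym (Fin m) n → R)
    (y : Fin m → B) : g (fm t y) = fm (fun μ => f (t μ)) fun b => g (y b) := by
  simp only [fm, map_sum, map_mul, h]
  refine Finset.sum_congr rfl fun μ _ => ?_
  rw [map_multiset_prod, Multiset.map_map]
  rfl

theorem P3_map {R R' : Type} [CommRing R] [CommRing R'] (f : R →+* R') {m1 n1 m2 n2 n3 : ℕ}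
    (α : Fin m1 → Sym (Fin 2) n1 → R) (β : Fin m2 → Sym (Fin m1) n2 → R)
    (γ : Sym (Fin m2) n3 → R) :
    MvPolynomial.map f (P3 α β γ) =
      P3 (fun i μ => f (α i μ)) (fun j ν => f (β j ν)) fun lam => f (γ lam) := by
  have h : ∀ r, MvPolynomial.map f (algebraMap R (MvPolynomial ℕ R) r) =
      algebraMap R' (MvPolynomial ℕ R') (f r) := by
    intro r
    rw [MvPolynomial.algebraMap_eq, MvPolynomial.algebraMap_eq, map_C]
  unfold P3
  rw [fm_map f (MvPolynomial.map f) h]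
  congr 1
  funext j
  rw [map_pow, fm_map f (MvPolynomial.map f) h]
  congr 2
  funext i
  rw [map_pow, fm_map f (MvPolynomial.map f) h]
  congr 2
  funext b
  rw [map_X]

/-- scaling of vectors to normalised ones -/
theorem exists_norm {κ : Type} [Nonempty κ] (v : κ → ℂ) :
    ∃ (m : κ) (c : ℂ) (v' : κ → ℂ), v' m = 1 ∧ ∀ μ, v μ = c * v' μ := by
  by_cases h : ∃ m, v m ≠ 0
  · obtain ⟨m, hm⟩ := h
    exact ⟨m, v m, fun μ => v μ / v m, div_self hm, fun μ => by field_simp⟩
  · push Not at h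
    obtain ⟨m⟩ := ‹Nonempty κ›
    exact ⟨m, 0, fun _ => 1, rfl, fun μ => by rw [h, zero_mul]⟩

theorem fm_smul {B : Type} [CommRing B] [Algebra ℂ B] {m n : ℕ} {t t' : Sym (Fin m) n → ℂ} {c : ℂ}
    (h : ∀ μ, t μ = c * t' μ) (y : Fin m → B) : fm t y = algebraMap ℂ B c * fm t' y := by
  rw [fm, fm, Finset.mul_sum]
  refine Finset.sum_congr rfl fun μ _ => ?_
  rw [h, map_mul, mul_assoc]

theorem fm_scale {B : Type} [CommRing B] [Algebra ℂ B] {m n : ℕ} (t : Sym (Fin m) n → ℂ)
    (c : Fin m → ℂ) (y : Fin m → B) :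
    fm t (fun i => algebraMap ℂ B (c i) * y i) = fm (fun μ => t μ * (μ.1.map c).prod) y := by
  rw [fm, fm]
  refine Finset.sum_congr rfl fun μ _ => ?_
  rw [map_mul, map_multiset_prod, Multiset.map_map, mul_assoc]
  congr 1
  rw [← Multiset.prod_map_mul]
  rfl

/-- every three-level composition is one with normalised coefficients -/
theorem P3_norm {m1 n1 m2 n2 n3 : ℕ} (hm1 : 0 < m1)
    (α : Fin m1 → Sym (Fin 2) n1 → ℂ) (β : Fin m2 → Sym (Fin m1) n2 → ℂ)
    (γ : Sym (Fin m2) n3 → ℂ) :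
    ∃ (ma : Fin m1 → Sym (Fin 2) n1) (mb : Fin m2 → Sym (Fin m1) n2)
      (α' : Fin m1 → Sym (Fin 2) n1 → ℂ) (β' : Fin m2 → Sym (Fin m1) n2 → ℂ)
      (γ' : Sym (Fin m2) n3 → ℂ), (∀ i, α' i (ma i) = 1) ∧ (∀ j, β' j (mb j) = 1) ∧
      P3 α β γ = P3 α' β' γ' := by
  have : Nonempty (Fin m1) := ⟨⟨0, hm1⟩⟩
  have : Nonempty (Sym (Fin 2) n1) := ⟨Sym.replicate n1 0⟩
  have : Nonempty (Sym (Fin m1) n2) := ⟨Sym.replicate n2 ⟨0, hm1⟩⟩
  choose ma c α' hα' hα using fun i => exists_norm (α i)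
  choose mb d β' hβ' hβ using fun j =>
    exists_norm (fun ν : Sym (Fin m1) n2 => β j ν * (ν.1.map fun i => c i ^ 2).prod)
  refine ⟨ma, mb, α', β', fun lam => γ lam * (lam.1.map fun j => d j ^ 2).prod, hα', hβ', ?_⟩
  unfold P3
  rw [← fm_scale]
  congr 1
  funext j
  rw [map_pow, ← mul_pow]
  congr 1
  rw [← fm_smul (hβ j), ← fm_scale]
  congr 1
  funext i
  rw [map_pow, ← mul_pow]
  congr 1
  exact fm_smul (hα i) _

/-- the exponent `X 0 ^ m * X 1 ^ (n - m)` -/
noncomputable def rho (n m : ℕ) : ℕ →₀ ℕ := Finsupp.single 0 m + Finsupp.single 1 (n - m)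

/-- The coefficient vectors of three-level compositions with few parameters satisfy a relation. -/
theorem exists_P3_rel {m1 n1 m2 n2 n3 N : ℕ} (hm1 : 0 < m1)
    (hN : m1 * (Fintype.card (Sym (Fin 2) n1) - 1) + m2 * (Fintype.card (Sym (Fin m1) n2) - 1) +
      Fintype.card (Sym (Fin m2) n3) < N) (ρ : Fin N → ℕ →₀ ℕ) :
    ∃ Q : MvPolynomial (Fin N) ℂ, Q ≠ 0 ∧
      ∀ (α : Fin m1 → Sym (Fin 2) n1 → ℂ) (β : Fin m2 → Sym (Fin m1) n2 → ℂ)
        (γ : Sym (Fin m2) n3 → ℂ), eval (fun m => coeff (ρ m) (P3 α β γ)) Q = 0 := by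
  classical
  -- the relation in one chart
  have chart : ∀ (ma : Fin m1 → Sym (Fin 2) n1) (mb : Fin m2 → Sym (Fin m1) n2),
      ∃ Q : MvPolynomial (Fin N) ℂ, Q ≠ 0 ∧
      ∀ (α : Fin m1 → Sym (Fin 2) n1 → ℂ) (β : Fin m2 → Sym (Fin m1) n2 → ℂ)
        (γ : Sym (Fin m2) n3 → ℂ), (∀ i, α i (ma i) = 1) → (∀ j, β j (mb j) = 1) →
        eval (fun m => coeff (ρ m) (P3 α β γ)) Q = 0 := by
    intro ma mb
    let ι : Type := (Σ i : Fin m1, {μ : Sym (Fin 2) n1 // μ ≠ ma i}) ⊕
      ((Σ j : Fin m2, {ν : Sym (Fin m1) n2 // ν ≠ mb j}) ⊕ Sym (Fin m2) n3)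
    have hcard : Fintype.card ι < Fintype.card (Fin N) := by
      simp only [ι, Fintype.card_sum, Fintype.card_sigma, Fintype.card_subtype_compl,
        Fintype.card_subtype_eq, Finset.sum_const, Finset.card_univ, Fintype.card_fin, smul_eq_mul]
      omega
    let αX : Fin m1 → Sym (Fin 2) n1 → MvPolynomial ι ℂ := fun i μ =>
      if h : μ ≠ ma i then X (Sum.inl ⟨i, μ, h⟩) else 1
    let βX : Fin m2 → Sym (Fin m1) n2 → MvPolynomial ι ℂ := fun j ν =>
      if h : ν ≠ mb j then X (Sum.inr (Sum.inl ⟨j, ν, h⟩)) else 1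
    let γX : Sym (Fin m2) n3 → MvPolynomial ι ℂ := fun lam => X (Sum.inr (Sum.inr lam))
    obtain ⟨Q, hQ0, hQ⟩ := exists_rel hcard fun m => coeff (ρ m) (P3 αX βX γX)
    refine ⟨Q, hQ0, fun α β γ hα hβ => ?_⟩
    let z : ι → ℂ := Sum.elim (fun x => α x.1 x.2.1) (Sum.elim (fun x => β x.1 x.2.1) γ)
    have h1 : P3 α β γ = MvPolynomial.map (eval z) (P3 αX βX γX) := by
      rw [P3_map]
      congr 1
      · funext i μ
        simp only [αX]
        split_ifs with h
        · rw [eval_X]; rfl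
        · push Not at h
          rw [h, hα, map_one]
      · funext j ν
        simp only [βX]
        split_ifs with h
        · rw [eval_X]; rfl
        · push Not at h
          rw [h, hβ, map_one]
      · funext lam
        simp only [γX]
        rw [eval_X]; rfl
    have h2 : (fun m => coeff (ρ m) (P3 α β γ)) = fun m => eval z (coeff (ρ m) (P3 αX βX γX)) := by
      funext m
      rw [h1, coeff_map]
    rw [h2]
    have h3 := congrArg (eval z) hQ
    rw [map_zero] at h3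
    rw [← h3, eval_aeval]
  choose Q hQ0 hQ using chart
  refine ⟨∏ ma, ∏ mb, Q ma mb, ?_, fun α β γ => ?_⟩
  · exact Finset.prod_ne_zero_iff.2 fun ma _ => Finset.prod_ne_zero_iff.2 fun mb _ => hQ0 ma mb
  · obtain ⟨ma, mb, α', β', γ', h1, h2, h3⟩ := P3_norm hm1 α β γ
    rw [h3, map_prod]
    apply Finset.prod_eq_zero (Finset.mem_univ ma)
    rw [map_prod]
    exact Finset.prod_eq_zero (Finset.mem_univ mb) (hQ ma mb α' β' γ' h1 h2)

end Q49.PN
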