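import Mathlib
import Pool.Agent.H124R3.PartA
import Pool.Agent.H124R3.PartB

/-!
# Polynomial networks with quadratic activation: basic algebra

`U w W k j y a` is the value of the `a`-th neuron after `j + 1` layers with the widths `w k, …` and
weights `W k, …`, started at the (already activated) input `y`.
-/

namespace Q49.PN

open MvPolynomial
open Pool.Agent.H124R3 (toPoly mem_range_toPoly mon toPoly_apply)

/-- `j + 1` layers starting with layer `k`, applied to the activated input `y` -/
def U {B : Type*} [CommSemiring B] (w : ℕ → ℕ) (W : ℕ → ℕ → ℕ → B) (k : ℕ) :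
    ℕ → (ℕ → B) → ℕ → B
  | 0, y, a => ∑ b ∈ Finset.range (w k), W k a b * y b
  | j + 1, y, a => ∑ b ∈ Finset.range (w (k + j + 1)), W (k + j + 1) a b * U w W k j y b ^ 2

theorem U_map {B B' : Type*} [CommSemiring B] [CommSemiring B'] (f : B →+* B') (w : ℕ → ℕ)
    (W : ℕ → ℕ → ℕ → B) (k j : ℕ) (y : ℕ → B) (a : ℕ) :
    f (U w W k j y a) = U w (fun k a b => f (W k a b)) k j (fun b => f (y b)) a := by
  induction j generalizing a with
  | zero => simp [U]
  | succ j ih => simp only [U, map_sum, map_mul, map_pow, ih]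

theorem U_congr {B : Type*} [CommSemiring B] (w : ℕ → ℕ) (W : ℕ → ℕ → ℕ → B) (k j : ℕ)
    {y y' : ℕ → B} (h : ∀ b < w k, y b = y' b) (a : ℕ) : U w W k j y a = U w W k j y' a := by
  induction j generalizing a with
  | zero =>
    simp only [U]
    exact Finset.sum_congr rfl fun b hb => by rw [h b (Finset.mem_range.1 hb)]
  | succ j ih => simp only [U, ih]

/-- composition of layers -/
theorem U_split {B : Type*} [CommSemiring B] (w : ℕ → ℕ) (W : ℕ → ℕ → ℕ → B) (k i j : ℕ)
    (y : ℕ → B) (a : ℕ) :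
    U w W k (i + 1 + j) y a = U w W (k + i + 1) j (fun b => U w W k i y b ^ 2) a := by
  induction j generalizing a with
  | zero => simp only [U]
  | succ j ih =>
    have h1 : i + 1 + (j + 1) = (i + 1 + j) + 1 := by ring
    have h2 : k + (i + 1 + j) + 1 = k + i + 1 + j + 1 := by ring
    rw [h1]
    simp only [U, ih, h2]

/-- the form of degree `n` with coefficients `t` in the variables `y` -/
def fm {R B : Type*} [CommSemiring R] [CommSemiring B] [Algebra R B] {m n : ℕ}
    (t : Sym (Fin m) n → R) (y : Fin m → B) : B :=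
  ∑ μ, algebraMap R B (t μ) * (μ.1.map y).prod

theorem aeval_toPoly {n r : ℕ} {B : Type*} [CommRing B] [Algebra ℂ B]
    (c : Sym (Fin (n + 1)) r → ℂ) (y : Fin (n + 1) → B) :
    aeval y (toPoly n r c) = fm c y := by
  rw [toPoly_apply, map_sum, fm]
  refine Finset.sum_congr rfl fun μ _ => ?_
  rw [map_smul, Algebra.smul_def]
  congr 1
  unfold mon
  rw [map_multiset_prod, Multiset.map_map]
  congr 1
  apply Multiset.map_congr rfl
  intro i _
  simp

theorem U_homog (w : ℕ → ℕ) (W : ℕ → ℕ → ℕ → ℂ) (k j m : ℕ) (y : ℕ → MvPolynomial (Fin m) ℂ)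
    (hy : ∀ b, (y b).IsHomogeneous 1) (a : ℕ) :
    (U w (fun k a b => C (W k a b)) k j y a).IsHomogeneous (2 ^ j) := by
  induction j generalizing a with
  | zero =>
    simp only [U, pow_zero]
    refine IsHomogeneous.sum _ _ _ fun b _ => ?_
    have := (isHomogeneous_C (Fin m) (W k a b)).mul (hy b)
    rwa [zero_add] at this
  | succ j ih =>
    simp only [U]
    refine IsHomogeneous.sum _ _ _ fun b _ => ?_
    have := (isHomogeneous_C (Fin m) (W (k + j + 1) a b)).mul ((ih b).pow 2)
    rwa [zero_add, ← pow_succ] at this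

/-- the layers are given by forms -/
theorem U_form (w : ℕ → ℕ) (W : ℕ → ℕ → ℕ → ℂ) (k j m : ℕ) (hm : w k = m + 1) (a : ℕ) :
    ∃ t : Sym (Fin (m + 1)) (2 ^ j) → ℂ, ∀ (B : Type) [CommRing B] [Algebra ℂ B] (y : ℕ → B),
      U w (fun k a b => algebraMap ℂ B (W k a b)) k j y a = fm t fun b : Fin (m + 1) => y b := by
  let y0 : ℕ → MvPolynomial (Fin (m + 1)) ℂ := fun b => if h : b < m + 1 then X ⟨b, h⟩ else 0
  have hy0 : ∀ b, (y0 b).IsHomogeneous 1 := by
    intro b
    simp only [y0]
    split_ifs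
    · exact isHomogeneous_X _ _
    · exact isHomogeneous_zero _ _ _
  obtain ⟨t, ht⟩ := mem_range_toPoly (U_homog w W k j (m + 1) y0 hy0 a)
  refine ⟨t, fun B _ _ y => ?_⟩
  rw [← aeval_toPoly, ht]
  have h1 := U_map (aeval (fun b : Fin (m + 1) => y b) :
    MvPolynomial (Fin (m + 1)) ℂ →ₐ[ℂ] B).toRingHom w (fun k a b => C (W k a b)) k j y0 a
  simp only [AlgHom.toRingHom_eq_coe, RingHom.coe_coe, aeval_C] at h1
  rw [h1]
  apply U_congr
  intro b hb
  rw [hm] at hb
  simp only [y0, dif_pos hb, aeval_X]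

end Q49.PN
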