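import Pool.Agent.Q49.PN.Jac

/-!
# The network with widths (2, 3, 4, 5, 4, 6, 4, 1) fills
-/

namespace Q49.PN

open MvPolynomial

/-- the weights as polynomials in the 65 parameters -/
noncomputable def Wt (k a b : ℕ) : MvPolynomial (Fin 65) ℂ :=
  C ((Wd k a b : ℕ) : ℂ) + ∑ p : Fin 65, if k = kk p ∧ a = aa p ∧ b = bb p then X p else 0

theorem Wt_eval (k a b : ℕ) : eval 0 (Wt k a b) = ((Wd k a b : ℕ) : ℂ) := by
  rw [Wt, map_add, eval_C, map_sum, Finset.sum_eq_zero, add_zero]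
  intro p _
  split_ifs <;> simp

theorem prm_inj {p p' : Fin 65} (h : kk p = kk p' ∧ aa p = aa p' ∧ bb p = bb p') : p = p' := by
  rcases lt_trichotomy p p' with h1 | h1 | h1
  · exact absurd ⟨h.1.symm, h.2.1.symm, h.2.2.symm⟩ ((prm_ok p' p'.2).2.2.2 p h1)
  · exact h1
  · exact absurd h ((prm_ok p p.2).2.2.2 p' h1)

/-- derivative with respect to a parameter at the origin -/
noncomputable def Dp (p : Fin 65) : MvPolynomial (Fin 65) ℂ →+ ℂ :=
  (eval (0 : Fin 65 → ℂ)).toAddMonoidHom.comp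
    (pderiv p : Derivation ℂ (MvPolynomial (Fin 65) ℂ) _).toLinearMap.toAddMonoidHom

theorem Dp_apply (p : Fin 65) (f : MvPolynomial (Fin 65) ℂ) : Dp p f = eval 0 (pderiv p f) := rfl

theorem Dp_mul (p : Fin 65) (f g : MvPolynomial (Fin 65) ℂ) :
    Dp p (f * g) = Dp p f * eval 0 g + eval 0 f * Dp p g := by
  simp only [Dp_apply, Derivation.leibniz, smul_eq_mul, map_add, map_mul]
  ring

theorem Dp_Wt (p : Fin 65) (k a b : ℕ) :
    Dp p (Wt k a b) = if k = kk p ∧ a = aa p ∧ b = bb p then 1 else 0 := by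
  rw [Wt, map_add, map_sum, Finset.sum_eq_single p]
  · have h1 : Dp p (C ((Wd k a b : ℕ) : ℂ)) = 0 := by
      rw [Dp_apply, pderiv_C, map_zero]
    rw [h1, zero_add]
    split_ifs with h
    · rw [Dp_apply, pderiv_X_self, map_one]
    · rw [map_zero]
  · intro p' _ hne
    split_ifs with h
    · rw [Dp_apply, pderiv_X_of_ne hne.symm.symm, map_zero]
    · rw [map_zero]
  · intro h
    exact absurd (Finset.mem_univ p) h

theorem wN_eq : wN dd = wd := by
  funext k
  by_cases h : k < 8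
  · have : ∀ k : Fin 8, wN dd k = wd k := by decide
    exact this ⟨k, h⟩
  · have h1 : wN dd k = 0 := by simp [wN, h]
    rw [h1]
    unfold wd dig
    have h2 : wlit >>> (7 * k) = 0 := by
      rw [Nat.shiftRight_eq_div_pow]
      apply Nat.div_eq_of_lt
      refine lt_of_lt_of_le (b := 2 ^ 56) (by decide) (Nat.pow_le_pow_right (by norm_num) (by omega))
    rw [h2]

/-- the value of the network at `(i, 1)` as a polynomial in the parameters -/
noncomputable def Gp (i : ℕ) : MvPolynomial (Fin 65) ℂ := U wd Wt 0 6 (inp i) 0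

theorem Dp_Gp (i : ℕ) (p : Fin 65) : Dp p (Gp i) = ((Mn i p : ℕ) : ℂ) := by
  obtain ⟨h1, h2, h3, -⟩ := prm_ok p p.2
  rw [Gp, D_main (eval 0) (Dp p) (Dp_mul p) wd wd_seven Wt (inp i) (kk p) (aa p) (bb p) h1 h2 h3
    (Dp_Wt p) (fun b => by
      unfold inp
      split_ifs
      · rw [Dp_apply]
        have : ((i : ℕ) : MvPolynomial (Fin 65) ℂ) = C (i : ℂ) := by simp
        rw [this, pderiv_C, map_zero]
      · rw [Dp_apply, pderiv_one, map_zero])]
  rw [Mn, Nat.cast_mul]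
  have e1 := bp_map (Nat.castRingHom ℂ) wd Wd (fun j b => U wd Wd 0 j (inp i) b) (6 - kk p) (aa p)
  have e2 := va_map (Nat.castRingHom ℂ) wd Wd (inp i) (kk p) (bb p)
  have e3 := va_map (eval (0 : Fin 65 → ℂ)) wd Wt (inp i) (kk p) (bb p)
  rw [e3]
  simp only [Nat.coe_castRingHom] at e1 e2
  rw [e1, e2]
  have hW : (fun k a b => eval (0 : Fin 65 → ℂ) (Wt k a b)) = fun k a b => ((Wd k a b : ℕ) : ℂ) := by
    funext k a b
    exact Wt_eval k a b
  have hy : (fun b => eval (0 : Fin 65 → ℂ) (inp i b)) = fun b => (((inp i b : ℕ)) : ℂ) := by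
    funext b
    rw [inp_map]
    exact (inp_map (Nat.castRingHom ℂ) i b).symm
  have hu : (fun j b => eval (0 : Fin 65 → ℂ) (U wd Wt 0 j (inp i) b)) =
      fun j b => ((U wd Wd 0 j (inp i) b : ℕ) : ℂ) := by
    funext j b
    rw [U_map, hW, hy]
    exact (U_map (Nat.castRingHom ℂ) wd Wd 0 j (inp i) b).symm
  rw [hW, hu, hy]

end Q49.PN
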