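import Pool.Agent.Q49.PN.Fill

/-!
# The network with widths (2, 3, 4, 5, 4, 6, 4, 1) fills
-/

namespace Q49.PN

open MvPolynomial

theorem U_congrW {B : Type*} [CommSemiring B] (w : ℕ → ℕ) {W W' : ℕ → ℕ → ℕ → B} (k j : ℕ)
    (h : ∀ l ≤ k + j, ∀ a b, W l a b = W' l a b) (y : ℕ → B) (a : ℕ) :
    U w W k j y a = U w W' k j y a := by
  induction j generalizing a with
  | zero => simp only [U, h k (Nat.le_refl _)]
  | succ j ih =>
    simp only [U]
    refine Finset.sum_congr rfl fun b _ => ?_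
    rw [h (k + j + 1) (le_of_eq (by ring)), ih (fun l hl => h l (hl.trans (by omega)))]

/-- the number of zeros in a multiset -/
def cnt (μ : Sym (Fin 2) 64) : ℕ := μ.1.count 0

theorem cnt_add (μ : Sym (Fin 2) 64) : cnt μ + μ.1.count 1 = 64 := by
  have h1 := Multiset.toFinset_sum_count_eq μ.1
  rw [μ.2] at h1
  have h2 : ∑ a : Fin 2, μ.1.count a = 64 := by
    refine Eq.trans ?_ h1
    symm
    apply Finset.sum_subset (Finset.subset_univ _)
    intro a _ ha
    rw [Multiset.mem_toFinset] at ha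
    exact Multiset.count_eq_zero.2 ha
  rwa [Fin.sum_univ_two] at h2

theorem sym_prod {B : Type*} [CommSemiring B] (y : Fin 2 → B) (μ : Sym (Fin 2) 64) :
    (μ.1.map y).prod = y 0 ^ cnt μ * y 1 ^ (64 - cnt μ) := by
  have h := cnt_add μ
  have h1 : 64 - cnt μ = μ.1.count 1 := by omega
  rw [h1, Finset.prod_multiset_map_count, cnt]
  rw [← Fin.prod_univ_two (fun i => y i ^ μ.1.count i)]
  apply Finset.prod_subset (Finset.subset_univ _)
  intro a _ ha
  rw [Multiset.mem_toFinset] at ha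
  rw [Multiset.count_eq_zero.2 ha, pow_zero]

theorem mon_rho (m : ℕ) : (X 0 ^ m * X 1 ^ (64 - m) : MvPolynomial ℕ ℂ) = monomial (rho 64 m) 1 := by
  rw [X_pow_eq_monomial, X_pow_eq_monomial, monomial_mul, one_mul, rho]

theorem rho_inj {m m' : ℕ} (h : rho 64 m = rho 64 m') : m = m' := by
  have := congrArg (fun s : ℕ →₀ ℕ => s 0) h
  simpa only [rho_apply0] using this

theorem cnt_lt (μ : Sym (Fin 2) 64) : cnt μ < 65 := by
  have := cnt_add μ
  omega

theorem coeff_fm (τ : Sym (Fin 2) 64 → ℂ) (s : ℕ →₀ ℕ) :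
    coeff s (fm τ fun b : Fin 2 => (X (b : ℕ) : MvPolynomial ℕ ℂ)) =
      ∑ μ, if rho 64 (cnt μ) = s then τ μ else 0 := by
  rw [fm, coeff_sum]
  refine Finset.sum_congr rfl fun μ _ => ?_
  rw [sym_prod, MvPolynomial.algebraMap_eq, coeff_C_mul]
  have h : (X ((0 : Fin 2) : ℕ) ^ cnt μ * X ((1 : Fin 2) : ℕ) ^ (64 - cnt μ) : MvPolynomial ℕ ℂ) =
      monomial (rho 64 (cnt μ)) 1 := mon_rho _
  rw [h, coeff_monomial]
  split_ifs <;> simp

theorem eval_fm (τ : Sym (Fin 2) 64 → ℂ) (i : ℕ) :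
    eval (inp i) (fm τ fun b : Fin 2 => (X (b : ℕ) : MvPolynomial ℕ ℂ)) =
      ∑ m : Fin 65, coeff (rho 64 m) (fm τ fun b : Fin 2 => (X (b : ℕ) : MvPolynomial ℕ ℂ)) *
        (i : ℂ) ^ (m : ℕ) := by
  simp only [coeff_fm]
  rw [fm, map_sum]
  simp only [Finset.sum_mul]
  rw [Finset.sum_comm]
  refine Finset.sum_congr rfl fun μ _ => ?_
  rw [Finset.sum_eq_single ⟨cnt μ, cnt_lt μ⟩]
  · rw [if_pos rfl, sym_prod, MvPolynomial.algebraMap_eq, map_mul, eval_C, map_mul, map_pow, map_pow,
      eval_X, eval_X]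
    simp [inp]
  · intro m _ hm
    rw [if_neg, zero_mul]
    intro h
    exact hm (Fin.ext (rho_inj h).symm)
  · intro h
    exact absurd (Finset.mem_univ _) h

/-- the weights for given values of the parameters -/
noncomputable def Wc (t : Fin 65 → ℂ) : Fin 7 → ℕ → ℕ → ℂ := fun k a b => eval t (Wt k a b)

theorem net_Wc (t : Fin 65 → ℂ) (a : ℕ) :
    netF dd (Wc t) a = U wd (fun k a b => C (eval t (Wt k a b))) 0 6 (fun b => X b) a := by
  rw [netF_eq, wN_eq]
  apply U_congrW
  intro l hl a b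
  have : l < 7 := by omega
  simp [WN, this, Wc]

theorem net_form (t : Fin 65 → ℂ) : ∃ τ : Sym (Fin 2) 64 → ℂ,
    netF dd (Wc t) 0 = fm τ fun b : Fin 2 => (X (b : ℕ) : MvPolynomial ℕ ℂ) := by
  obtain ⟨τ, hτ⟩ := U_form wd (fun k a b => eval t (Wt k a b)) 0 6 1 wd_zero 0
  refine ⟨τ, ?_⟩
  rw [net_Wc]
  exact hτ _ _

theorem Wd_last (a b : ℕ) (ha : 1 ≤ a) (hb : b < 4) : Wd 6 a b = 0 := by
  by_cases h : a < 8
  · have : ∀ a : Fin 8, 1 ≤ (a : ℕ) → ∀ b : Fin 4, Wd 6 a b = 0 := by decide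
    exact this ⟨a, h⟩ ha ⟨b, hb⟩
  · unfold Wd dig
    have h2 : Wlit >>> (7 * (6 * 64 + a * 8 + b)) = 0 := by
      rw [Nat.shiftRight_eq_div_pow]
      apply Nat.div_eq_of_lt
      refine lt_of_lt_of_le (b := 2 ^ (7 * 448)) (by decide +kernel)
        (Nat.pow_le_pow_right (by norm_num) (by omega))
    rw [h2]

theorem net_row (t : Fin 65 → ℂ) (a : ℕ) (ha : 1 ≤ a) : netF dd (Wc t) a = 0 := by
  rw [net_Wc]
  simp only [U]
  refine Finset.sum_eq_zero fun b hb => ?_
  have hb' : b < 4 := by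
    have h : wd (0 + 5 + 1) = 4 := by decide
    rw [h] at hb
    exact Finset.mem_range.1 hb
  have h1 : Wt (0 + 5 + 1) a b = 0 := by
    have h0 : 0 + 5 + 1 = 6 := rfl
    rw [h0, Wt, Wd_last a b ha hb', Nat.cast_zero, C_0, zero_add]
    refine Finset.sum_eq_zero fun p _ => ?_
    rw [if_neg]
    rintro ⟨h2, h3, -⟩
    obtain ⟨-, h4, -, -⟩ := prm_ok p p.2
    rw [← h2, ← h3] at h4
    have h5 : wd (6 + 1) = 1 := by decide
    rw [h5] at h4
    omega
  rw [h1, map_zero, C_0, zero_mul]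

/-- the coefficients of the output as polynomials in the parameters -/
noncomputable def phi (m : Fin 65) : MvPolynomial (Fin 65) ℂ :=
  coeff (rho 64 m) (U wd (fun k a b => C (Wt k a b)) 0 6 (fun b => X b) 0 :
    MvPolynomial ℕ (MvPolynomial (Fin 65) ℂ))

theorem eval_phi (t : Fin 65 → ℂ) (m : Fin 65) :
    eval t (phi m) = coeff (rho 64 m) (netF dd (Wc t) 0) := by
  rw [phi, ← coeff_map (eval t), U_map, net_Wc]
  simp only [map_C, map_X]

theorem Gp_eq (i : ℕ) : Gp i = ∑ m : Fin 65, phi m * C ((i : ℂ) ^ (m : ℕ)) := by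
  apply MvPolynomial.funext
  intro t
  rw [map_sum]
  simp only [map_mul, eval_C, eval_phi]
  obtain ⟨τ, hτ⟩ := net_form t
  rw [hτ, ← eval_fm, ← hτ, net_Wc, U_map, Gp, U_map]
  simp only [eval_C, eval_X, inp_map]

theorem jacobian (v : Fin 65 → ℂ)
    (hv : ∀ p : Fin 65, ∑ m, v m * eval 0 (pderiv p (phi m)) = 0) : v = 0 := by
  let V : Matrix (Fin 65) (Fin 65) ℂ := Matrix.of fun i m => ((i : ℕ) : ℂ) ^ (m : ℕ)
  let J : Matrix (Fin 65) (Fin 65) ℂ := Matrix.of fun m p => Dp p (phi m)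
  have h1 : (Matrix.of fun (i p : Fin 65) => ((Mn i p : ℕ) : ℂ)) = V * J := by
    ext i p
    rw [Matrix.mul_apply]
    simp only [V, J, Matrix.of_apply]
    rw [← Dp_Gp, Gp_eq, map_sum]
    refine Finset.sum_congr rfl fun m _ => ?_
    rw [Dp_mul, eval_C]
    have h2 : Dp p (C (((i : ℕ) : ℂ) ^ (m : ℕ))) = 0 := by rw [Dp_apply, pderiv_C, map_zero]
    rw [h2]
    ring
  have h2 := det_ne ℂ
  rw [h1, Matrix.det_mul] at h2
  have h3 : J.det ≠ 0 := right_ne_zero_of_mul h2
  apply Matrix.eq_zero_of_vecMul_eq_zero h3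
  funext p
  exact hv p

theorem fill_dd : Fill dd := by
  classical
  intro P hP c hc
  let f : ℕ × (ℕ →₀ ℕ) → MvPolynomial (Fin 65) ℂ := Function.extend rho' X 0
  have hf : ∀ (y : Fin 65 → ℂ), (fun p => eval y (f p)) = Function.extend rho' y 0 := by
    intro y
    funext p
    by_cases h : ∃ m, rho' m = p
    · obtain ⟨m, rfl⟩ := h
      simp only [f]
      rw [rho'_injective.extend_apply, rho'_injective.extend_apply, eval_X]
    · simp only [f]
      rw [Function.extend_apply' _ _ _ h, Function.extend_apply' _ _ _ h]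
      simp
  -- the point given by a network
  have hnet : ∀ t : Fin 65 → ℂ, (fun p : ℕ × (ℕ →₀ ℕ) => coeff p.2 (netF dd (Wc t) p.1)) =
      Function.extend rho' (fun m => eval t (phi m)) 0 := by
    intro t
    funext p
    by_cases h : ∃ m, rho' m = p
    · obtain ⟨m, rfl⟩ := h
      rw [rho'_injective.extend_apply, eval_phi]
      rfl
    · rw [Function.extend_apply' _ _ _ h]
      obtain ⟨a, s⟩ := p
      simp only [Pi.zero_apply]
      rcases Nat.eq_zero_or_pos a with rfl | ha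
      · obtain ⟨τ, hτ⟩ := net_form t
        rw [hτ, coeff_fm]
        refine Finset.sum_eq_zero fun μ _ => ?_
        rw [if_neg]
        intro h1
        exact h ⟨⟨cnt μ, cnt_lt μ⟩, by rw [rho', ← h1]⟩
      · rw [net_row t a ha, coeff_zero]
  have hQ : aeval f P = 0 := by
    apply Pool.Agent.H124R3.jacobian_dominant_at phi 0 jacobian
    apply MvPolynomial.funext
    intro t
    rw [eval_aeval, eval_aeval, hf, ← hnet, hP, map_zero]
  have hcc : c = Function.extend rho' (fun m => c (rho' m)) 0 := by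
    funext p
    by_cases h : ∃ m, rho' m = p
    · obtain ⟨m, rfl⟩ := h
      rw [rho'_injective.extend_apply]
    · rw [Function.extend_apply' _ _ _ h]
      by_contra h0
      obtain ⟨h1, h2, h3⟩ := hc p h0
      obtain ⟨a, s⟩ := p
      apply h
      simp only at h1 h2 h3
      have e1 : dd (Fin.last 7) = 1 := rfl
      have e2 : dd 0 = 2 := rfl
      rw [e1] at h1
      rw [e2] at h3
      have hs : s 0 + s 1 = 64 := by
        have h4 : s.support ⊆ {0, 1} := by
          intro b hb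
          have := h3 b hb
          simp only [Finset.mem_insert, Finset.mem_singleton]
          omega
        rw [Finset.sum_subset h4 (fun b _ hb => Finsupp.notMem_support_iff.1 hb),
          Finset.sum_pair (by decide)] at h2
        exact h2
      refine ⟨⟨s 0, by omega⟩, ?_⟩
      have ha : a = 0 := by omega
      subst ha
      rw [rho']
      congr 1
      ext b
      by_cases hb0 : b = 0
      · subst hb0
        rw [rho_apply0]
      · by_cases hb1 : b = 1
        · subst hb1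
          rw [rho_apply1]
          simp only
          omega
        · rw [rho_apply _ _ hb0 hb1]
          symm
          by_contra h4
          have := h3 b (Finsupp.mem_support_iff.2 h4)
          omega
  rw [hcc, ← hf, ← eval_aeval, hQ, map_zero]

end Q49.PN
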