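import Pool.Agent.Q49.PN.NonFill
import Pool.Agent.Q49.PN.Cert
import Pool.Agent.H124R3.Jac

/-!
# The derivative of the network
-/

namespace Q49.PN

open MvPolynomial

/-- the coefficients of the backward recursion -/
def bp {A : Type*} [CommSemiring A] (w : ℕ → ℕ) (W : ℕ → ℕ → ℕ → A) (u : ℕ → ℕ → A) : ℕ → ℕ → A
  | 0, a => if a = 0 then 1 else 0
  | n + 1, b => ∑ a ∈ Finset.range (w (7 - n)), bp w W u n a * W (6 - n) a b * (2 * u (5 - n) b)

theorem bp_map {A B : Type*} [CommSemiring A] [CommSemiring B] (f : A →+* B) (w : ℕ → ℕ)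
    (W : ℕ → ℕ → ℕ → A) (u : ℕ → ℕ → A) (n a : ℕ) :
    f (bp w W u n a) = bp w (fun k a b => f (W k a b)) (fun j b => f (u j b)) n a := by
  induction n generalizing a with
  | zero =>
    simp only [bp]
    split_ifs <;> simp
  | succ n ih => simp only [bp, map_sum, map_mul, ih, map_ofNat]

/-- the activated values -/
def va {A : Type*} [CommSemiring A] (w : ℕ → ℕ) (W : ℕ → ℕ → ℕ → A) (y : ℕ → A) (k b : ℕ) : A :=
  match k with
  | 0 => y b
  | j + 1 => U w W 0 j y b ^ 2

theorem va_map {A B : Type*} [CommSemiring A] [CommSemiring B] (f : A →+* B) (w : ℕ → ℕ)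
    (W : ℕ → ℕ → ℕ → A) (y : ℕ → A) (k b : ℕ) :
    f (va w W y k b) = va w (fun k a b => f (W k a b)) (fun b => f (y b)) k b := by
  cases k with
  | zero => rfl
  | succ j =>
    simp only [va, map_pow]
    rw [U_map]

section deriv

variable {R A : Type*} [CommRing R] [CommRing A] (e : R →+* A) (D : R →+ A)
  (hD : ∀ f g, D (f * g) = D f * e g + e f * D g)

include hD

theorem D_sq (f : R) : D (f ^ 2) = 2 * e f * D f := by
  rw [pow_two, hD]
  ring

theorem D_low (w : ℕ → ℕ) (W : ℕ → ℕ → ℕ → R) (y : ℕ → R) (κ : ℕ)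
    (hW : ∀ k < κ, ∀ a b, D (W k a b) = 0) (hy : ∀ b, D (y b) = 0) (j : ℕ) (hj : j < κ) (a : ℕ) :
    D (U w W 0 j y a) = 0 := by
  induction j generalizing a with
  | zero =>
    simp only [U, map_sum, hD, hy, hW 0 hj]
    simp
  | succ j ih =>
    simp only [U, map_sum, hD, D_sq e D hD, ih (by omega)]
    refine Finset.sum_eq_zero fun b _ => ?_
    rw [hW _ (by omega)]
    simp

theorem D_at (w : ℕ → ℕ) (W : ℕ → ℕ → ℕ → R) (y : ℕ → R) (κ : ℕ)
    (hW : ∀ k < κ, ∀ a b, D (W k a b) = 0) (hy : ∀ b, D (y b) = 0) (a : ℕ) :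
    D (U w W 0 κ y a) = ∑ b ∈ Finset.range (w κ), D (W κ a b) * e (va w W y κ b) := by
  cases κ with
  | zero =>
    simp only [U, map_sum, hD, hy, va]
    simp
  | succ j =>
    have h1 : 0 + j + 1 = j + 1 := by ring
    simp only [U, map_sum, hD, D_sq e D hD, va, h1]
    refine Finset.sum_congr rfl fun b _ => ?_
    rw [D_low e D hD w W y (j + 1) hW hy j (Nat.lt_succ_self j)]
    ring

theorem D_high (w : ℕ → ℕ) (hw7 : w 7 = 1) (W : ℕ → ℕ → ℕ → R) (y : ℕ → R) (κ : ℕ)
    (hW : ∀ k, κ < k → ∀ a b, D (W k a b) = 0) (n : ℕ) (hn : n + κ ≤ 6) :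
    D (U w W 0 6 y 0) = ∑ b ∈ Finset.range (w (7 - n)),
      bp w (fun k a b => e (W k a b)) (fun j b => e (U w W 0 j y b)) n b *
        D (U w W 0 (6 - n) y b) := by
  induction n with
  | zero => simp [hw7, bp]
  | succ n ih =>
    rw [ih (by omega)]
    have h1 : 6 - n = (5 - n) + 1 := by omega
    have h2 : 0 + (5 - n) + 1 = 6 - n := by omega
    have h3 : 7 - (n + 1) = 6 - n := by omega
    have h4 : 6 - (n + 1) = 5 - n := by omega
    have h5 : ∀ a, D (U w W 0 (6 - n) y a) = ∑ b ∈ Finset.range (w (6 - n)),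
        e (W (6 - n) a b) * (2 * e (U w W 0 (5 - n) y b) * D (U w W 0 (5 - n) y b)) := by
      intro a
      conv_lhs => rw [h1]
      simp only [U, map_sum, hD, D_sq e D hD, h2]
      refine Finset.sum_congr rfl fun b _ => ?_
      rw [hW _ (by omega)]
      ring
    simp only [h5, h3, h4, bp, Finset.mul_sum, Finset.sum_mul]
    rw [Finset.sum_comm]
    refine Finset.sum_congr rfl fun b _ => Finset.sum_congr rfl fun a _ => ?_
    ring

/-- the derivative with respect to one weight -/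
theorem D_main (w : ℕ → ℕ) (hw7 : w 7 = 1) (W : ℕ → ℕ → ℕ → R) (y : ℕ → R) (κ a₀ b₀ : ℕ)
    (hκ : κ ≤ 6) (ha : a₀ < w (κ + 1)) (hb : b₀ < w κ)
    (hW : ∀ k a b, D (W k a b) = if k = κ ∧ a = a₀ ∧ b = b₀ then 1 else 0)
    (hy : ∀ b, D (y b) = 0) :
    D (U w W 0 6 y 0) =
      bp w (fun k a b => e (W k a b)) (fun j b => e (U w W 0 j y b)) (6 - κ) a₀ *
        e (va w W y κ b₀) := by
  have hW1 : ∀ k < κ, ∀ a b, D (W k a b) = 0 := fun k hk a b => by
    rw [hW, if_neg (fun h => hk.ne h.1)]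
  have hW2 : ∀ k, κ < k → ∀ a b, D (W k a b) = 0 := fun k hk a b => by
    rw [hW, if_neg (fun h => hk.ne' h.1)]
  rw [D_high e D hD w hw7 W y κ hW2 (6 - κ) (by omega)]
  have h1 : 6 - (6 - κ) = κ := by omega
  have h2 : 7 - (6 - κ) = κ + 1 := by omega
  rw [h1, h2, Finset.sum_eq_single a₀]
  · congr 1
    rw [D_at e D hD w W y κ hW1 hy, Finset.sum_eq_single b₀]
    · rw [hW, if_pos ⟨rfl, rfl, rfl⟩, one_mul]
    · intro b _ hne
      rw [hW, if_neg (fun h => hne h.2.2), zero_mul]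
    · intro h
      exact absurd (Finset.mem_range.2 hb) h
  · intro a _ hne
    rw [D_at e D hD w W y κ hW1 hy, Finset.sum_eq_zero, mul_zero]
    intro b _
    rw [hW, if_neg (fun h => hne h.2.1), zero_mul]
  · intro h
    exact absurd (Finset.mem_range.2 ha) h

end deriv

/-! ### the values modulo 67 -/

/-- the input `(i, 1)` -/
def inp {A : Type*} [Semiring A] (i b : ℕ) : A := if b = 0 then (i : A) else 1

theorem inp_map {A B : Type*} [Semiring A] [Semiring B] (f : A →+* B) (i b : ℕ) :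
    f (inp i b) = inp i b := by
  unfold inp
  split_ifs <;> simp

/-- the exact entries of the Jacobian matrix -/
def Mn (i p : ℕ) : ℕ :=
  bp wd Wd (fun j b => U wd Wd 0 j (inp i) b) (6 - kk p) (aa p) * va wd Wd (inp i) (kk p) (bb p)

theorem wd_zero : wd 0 = 2 := by decide
theorem wd_seven : wd 7 = 1 := by decide

theorem U_mod (i : ℕ) (hi : i < 65) (j : ℕ) (hj : j ≤ 6) (a : ℕ) (ha : a < wd (j + 1)) :
    ((U wd Wd 0 j (inp i) a : ℕ) : ZMod 67) = (zc i j a : ℕ) := by
  induction j generalizing a with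
  | zero =>
    have h1 := (allTo_iff _ _).1 ((allTo_iff _ _).1 check1_ok i hi) a (by
      have : wd 1 = 3 := by decide
      rwa [zero_add, this] at ha)
    rw [Nat.beq_eq] at h1
    rw [h1, ZMod.natCast_mod]
    congr 1
    simp only [U, wd_zero, Finset.sum_range_succ, Finset.range_zero, Finset.sum_empty, inp]
    simp
  | succ j ih =>
    have h1 := (allTo_iff _ _).1 ((allTo_iff _ _).1 ((allTo_iff _ _).1 check2_ok i hi) j (by omega))
      a ha
    rw [Nat.beq_eq] at h1
    rw [h1, ZMod.natCast_mod, sumTo_eq]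
    simp only [U, Nat.cast_sum, Nat.cast_mul, Nat.cast_pow]
    have h2 : 0 + j + 1 = j + 1 := by ring
    rw [h2]
    refine Finset.sum_congr rfl fun b hb => ?_
    rw [ih (by omega) b (Finset.mem_range.1 hb)]

theorem va_mod (i : ℕ) (hi : i < 65) (k : ℕ) (hk : k ≤ 6) (b : ℕ) (hb : b < wd k) :
    ((va wd Wd (inp i) k b : ℕ) : ZMod 67) = (vc i k b : ℕ) := by
  cases k with
  | zero =>
    cases b with
    | zero => simp [va, vc, inp]
    | succ b => simp [va, vc, inp]
  | succ j =>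
    simp only [va, vc, Nat.cast_pow]
    rw [U_mod i hi j (by omega) b hb]

theorem bp_mod (i : ℕ) (hi : i < 65) (n : ℕ) (hn : n ≤ 6) (b : ℕ) (hb : b < wd (7 - n)) :
    ((bp wd Wd (fun j b => U wd Wd 0 j (inp i) b) n b : ℕ) : ZMod 67) = (bc i n b : ℕ) := by
  have h0 := (allTo_iff _ _).1 check3_ok i hi
  rw [Bool.and_eq_true] at h0
  induction n generalizing b with
  | zero =>
    have hb0 : b = 0 := by
      have : wd 7 = 1 := by decide
      rw [Nat.sub_zero, this] at hb
      omega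
    subst hb0
    have h1 := h0.1
    rw [Nat.beq_eq] at h1
    rw [h1]
    simp [bp]
  | succ n ih =>
    have h3 : 7 - (n + 1) = 6 - n := by omega
    rw [h3] at hb
    have h1 := (allTo_iff _ _).1 ((allTo_iff _ _).1 h0.2 n (by omega)) b hb
    rw [Nat.beq_eq] at h1
    rw [h1, ZMod.natCast_mod, sumTo_eq]
    simp only [bp, Nat.cast_sum, Nat.cast_mul, Nat.cast_ofNat]
    refine Finset.sum_congr rfl fun a ha => ?_
    rw [ih (by omega) a (Finset.mem_range.1 ha), U_mod i hi (5 - n) (by omega) b (by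
      have : 5 - n + 1 = 6 - n := by omega
      rwa [this])]

theorem prm_ok (p : ℕ) (hp : p < 65) : kk p ≤ 6 ∧ aa p < wd (kk p + 1) ∧ bb p < wd (kk p) ∧
    ∀ p' < p, ¬ (kk p = kk p' ∧ aa p = aa p' ∧ bb p = bb p') := by
  have h := (allTo_iff _ _).1 check6_ok p hp
  simp only [Bool.and_eq_true, Nat.ble_eq, Nat.blt_eq] at h
  obtain ⟨⟨⟨h1, h2⟩, h3⟩, h4⟩ := h
  refine ⟨h1, h2, h3, fun p' hp' ⟨e1, e2, e3⟩ => ?_⟩
  have h5 := (allTo_iff _ _).1 h4 p' hp'
  rw [e1, e2, e3] at h5
  simp at h5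

theorem M_mod (i p : ℕ) (hi : i < 65) (hp : p < 65) : ((Mn i p : ℕ) : ZMod 67) = (mc i p : ℕ) := by
  have h1 := (allTo_iff _ _).1 ((allTo_iff _ _).1 check4_ok i hi) p hp
  rw [Nat.beq_eq] at h1
  obtain ⟨e1, e2, e3, -⟩ := prm_ok p hp
  rw [h1, ZMod.natCast_mod, Mn]
  simp only [Nat.cast_mul]
  rw [bp_mod i hi (6 - kk p) (by omega) (aa p) (by
    have : 7 - (6 - kk p) = kk p + 1 := by omega
    rwa [this]), va_mod i hi (kk p) e1 (bb p) e3]

instance : Fact (Nat.Prime 67) := ⟨by norm_num⟩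

/-- the exact Jacobian minor is not zero -/
theorem det_ne (F : Type) [Field F] [CharZero F] :
    (Matrix.of fun (i p : Fin 65) => ((Mn i p : ℕ) : F)).det ≠ 0 := by
  have h1 : (Matrix.of fun (i p : Fin 65) => ((mc i p : ℕ) : ZMod 67)) *
      (Matrix.of fun (j p : Fin 65) => ((ic j p : ℕ) : ZMod 67)) = 1 := by
    ext i p
    rw [Matrix.mul_apply]
    have h2 := (allTo_iff _ _).1 ((allTo_iff _ _).1 check5_ok i i.2) p p.2
    rw [Nat.beq_eq, sumTo_eq] at h2
    simp only [Matrix.of_apply]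
    have h3 : ((∑ k ∈ Finset.range 65, mc i k * ic k p : ℕ) : ZMod 67) =
        ((cond (Nat.beq i p) 1 0 : ℕ) : ZMod 67) := by
      rw [← h2, ZMod.natCast_mod]
    rw [Finset.sum_range] at h3
    push_cast at h3
    rw [h3, Matrix.one_apply]
    by_cases h : i = p
    · subst h
      simp
    · have h4 : Nat.beq i p = false := by
        rw [Bool.eq_false_iff]
        intro h5
        exact h (Fin.ext (Nat.eq_of_beq_eq_true h5))
      rw [h4, if_neg h]
      simp
  have h2 : (Matrix.of fun (i p : Fin 65) => ((mc i p : ℕ) : ZMod 67)).det ≠ 0 := by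
    intro h
    have h3 := congrArg Matrix.det h1
    rw [Matrix.det_mul, h, zero_mul, Matrix.det_one] at h3
    exact zero_ne_one h3
  have h3 : (Matrix.of fun (i p : Fin 65) => ((Mn i p : ℕ) : ℤ)).det ≠ 0 := by
    intro h
    apply h2
    have h4 : (Matrix.of fun (i p : Fin 65) => ((mc i p : ℕ) : ZMod 67)) =
        (Int.castRingHom (ZMod 67)).mapMatrix
          (Matrix.of fun (i p : Fin 65) => ((Mn i p : ℕ) : ℤ)) := by
      ext i p
      simp only [RingHom.mapMatrix_apply, Matrix.map_apply, Matrix.of_apply]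
      rw [← M_mod i p i.2 p.2]
      simp
    rw [h4, ← RingHom.map_det, h, map_zero]
  intro h
  apply h3
  have h4 : (Matrix.of fun (i p : Fin 65) => ((Mn i p : ℕ) : F)) =
      (Int.castRingHom F).mapMatrix (Matrix.of fun (i p : Fin 65) => ((Mn i p : ℕ) : ℤ)) := by
    ext i p
    simp
  rw [h4, ← RingHom.map_det] at h
  exact (Int.cast_eq_zero (α := F)).1 h

end Q49.PN
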