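import Pool.Agent.Q49.PN.Alg

/-!
# Networks that do not fill
-/

namespace Q49.PN

open MvPolynomial

/-- the output of the network with `7` layers and squares as activation -/
noncomputable def netF (e : Fin (7 + 1) → ℕ) (W : Fin 7 → ℕ → ℕ → ℂ) : ℕ → MvPolynomial ℕ ℂ :=
  (List.finRange 7).foldl
    (fun (h : ℕ → MvPolynomial ℕ ℂ) (k : Fin 7) (a : ℕ) =>
      ∑ b ∈ Finset.range (e k.castSucc),
        MvPolynomial.C (W k a b) * h b ^ (if (k : ℕ) = 0 then 1 else 2))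
    (fun b : ℕ => (MvPolynomial.X b : MvPolynomial ℕ ℂ))

/-- the network variety is the ambient space -/
def Fill (e : Fin (7 + 1) → ℕ) : Prop :=
  ∀ P : MvPolynomial (ℕ × (ℕ →₀ ℕ)) ℂ,
    (∀ W : Fin 7 → ℕ → ℕ → ℂ,
      MvPolynomial.eval (fun p : ℕ × (ℕ →₀ ℕ) => MvPolynomial.coeff p.2 (netF e W p.1)) P = 0) →
    ∀ c : ℕ × (ℕ →₀ ℕ) → ℂ,
      (∀ p : ℕ × (ℕ →₀ ℕ), c p ≠ 0 →
        p.1 < e (Fin.last 7) ∧ (∑ b ∈ p.2.support, p.2 b) = 2 ^ (7 - 1) ∧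
          ∀ b ∈ p.2.support, b < e 0) →
      MvPolynomial.eval c P = 0

/-- widths indexed by natural numbers -/
def wN (e : Fin (7 + 1) → ℕ) (k : ℕ) : ℕ := if h : k < 8 then e ⟨k, h⟩ else 0

/-- weights indexed by natural numbers -/
def WN {R : Type*} [Zero R] (W : Fin 7 → ℕ → ℕ → R) (k a b : ℕ) : R :=
  if h : k < 7 then W ⟨k, h⟩ a b else 0

theorem netF_eq (e : Fin (7 + 1) → ℕ) (W : Fin 7 → ℕ → ℕ → ℂ) (a : ℕ) :
    netF e W a = U (wN e) (fun k a b => C (WN W k a b)) 0 6 (fun b => X b) a := by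
  have h1 : List.finRange 7 = [0, 1, 2, 3, 4, 5, 6] := by decide
  unfold netF
  rw [h1]
  simp only [List.foldl, U, wN, WN]
  simp [Fin.castSucc, Fin.castAdd, Fin.castLE]

/-- the index of the coefficient of `X 0 ^ m * X 1 ^ (64 - m)` of the first output -/
noncomputable def rho' (m : Fin 65) : ℕ × (ℕ →₀ ℕ) := (0, rho 64 m)

theorem rho_apply0 (m : ℕ) : rho 64 m 0 = m := by simp [rho]

theorem rho_apply1 (m : ℕ) : rho 64 m 1 = 64 - m := by simp [rho]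

theorem rho_apply (m b : ℕ) (h0 : b ≠ 0) (h1 : b ≠ 1) : rho 64 m b = 0 := by
  simp [rho, h0.symm, h1.symm]

theorem rho'_injective : Function.Injective rho' := by
  intro m m' h
  have h1 := congrArg (fun p : ℕ × (ℕ →₀ ℕ) => p.2 0) h
  simp only [rho', rho_apply0] at h1
  exact Fin.ext h1

theorem sum_rho (m : Fin 65) : (∑ b ∈ (rho 64 m).support, rho 64 m b) = 64 := by
  have hs : (rho 64 m).support ⊆ {0, 1} := by
    intro b hb
    rw [Finsupp.mem_support_iff] at hb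
    by_contra h
    simp only [Finset.mem_insert, Finset.mem_singleton, not_or] at h
    exact hb (rho_apply m b h.1 h.2)
  rw [Finset.sum_subset hs (fun b _ hb => Finsupp.notMem_support_iff.1 hb),
    Finset.sum_pair (by decide), rho_apply0, rho_apply1]
  have := m.2
  omega

theorem rho_lt (m : Fin 65) : ∀ b ∈ (rho 64 m).support, b < 2 := by
  intro b hb
  rw [Finsupp.mem_support_iff] at hb
  by_contra h
  exact hb (rho_apply m b (by omega) (by omega))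

/-- relations between the coefficients of the first output show that the network does not fill -/
theorem not_fill_of_rel {e : Fin (7 + 1) → ℕ} (he0 : e 0 = 2) (he7 : 1 ≤ e (Fin.last 7))
    (Q : MvPolynomial (Fin 65) ℂ) (hQ0 : Q ≠ 0)
    (hQ : ∀ W, eval (fun m : Fin 65 => coeff (rho 64 m) (netF e W 0)) Q = 0) : ¬ Fill e := by
  intro hF
  have h1 : ∀ W : Fin 7 → ℕ → ℕ → ℂ,
      MvPolynomial.eval (fun p : ℕ × (ℕ →₀ ℕ) => MvPolynomial.coeff p.2 (netF e W p.1))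
        (rename rho' Q) = 0 := by
    intro W
    rw [eval_rename]
    exact hQ W
  obtain ⟨x, hx⟩ : ∃ x, eval x Q ≠ 0 := by
    by_contra hcon
    push Not at hcon
    exact hQ0 (MvPolynomial.funext fun x => by rw [hcon, map_zero])
  apply hx
  have h2 := hF (rename rho' Q) h1 (Function.extend rho' x 0) ?_
  · rw [eval_rename] at h2
    have h3 : Function.extend rho' x 0 ∘ rho' = x := by
      funext m
      rw [Function.comp_apply, rho'_injective.extend_apply]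
    rwa [h3] at h2
  · intro p hp
    by_cases h : ∃ m, rho' m = p
    · obtain ⟨m, rfl⟩ := h
      refine ⟨by simp only [rho']; omega, sum_rho m, ?_⟩
      rw [he0]
      exact rho_lt m
    · rw [Function.extend_apply' _ _ _ h] at hp
      exact absurd rfl hp

theorem net_eq_P3 {e : Fin (7 + 1) → ℕ} (he0 : e 0 = 2) {j0 j1 j2 m1 m2 : ℕ}
    (h6 : 6 = j0 + 1 + (j1 + 1 + j2)) (h1 : wN e (0 + j0 + 1) = m1 + 1)
    (h2 : wN e (0 + j0 + 1 + j1 + 1) = m2 + 1) (W : Fin 7 → ℕ → ℕ → ℂ) :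
    ∃ (α : Fin (m1 + 1) → Sym (Fin 2) (2 ^ j0) → ℂ)
      (β : Fin (m2 + 1) → Sym (Fin (m1 + 1)) (2 ^ j1) → ℂ)
      (γ : Sym (Fin (m2 + 1)) (2 ^ j2) → ℂ), netF e W 0 = P3 α β γ := by
  have hw0 : wN e 0 = 1 + 1 := by simp [wN]; exact he0
  choose α hα using fun i : Fin (m1 + 1) => U_form (wN e) (WN W) 0 j0 1 hw0 i
  choose β hβ using fun j : Fin (m2 + 1) => U_form (wN e) (WN W) (0 + j0 + 1) j1 m1 h1 j
  obtain ⟨γ, hγ⟩ := U_form (wN e) (WN W) (0 + j0 + 1 + j1 + 1) j2 m2 h2 0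
  refine ⟨α, β, γ, ?_⟩
  have e0 : netF e W 0 = U (wN e) (fun k a b => algebraMap ℂ (MvPolynomial ℕ ℂ) (WN W k a b)) 0
      (j0 + 1 + (j1 + 1 + j2)) (fun b => X b) 0 := by
    rw [netF_eq, ← h6]
    rfl
  rw [e0, U_split, U_split, hγ]
  unfold P3
  refine congrArg (fm γ) (funext fun j => ?_)
  refine congrArg (fun z => z ^ 2) ?_
  refine (hβ j _ _).trans ?_
  refine congrArg (fm (β j)) (funext fun i => ?_)
  exact congrArg (fun z => z ^ 2) (hα i _ _)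

theorem not_fill {e : Fin (7 + 1) → ℕ} (he0 : e 0 = 2) (he7 : 1 ≤ e (Fin.last 7))
    {j0 j1 j2 m1 m2 : ℕ}
    (h6 : 6 = j0 + 1 + (j1 + 1 + j2)) (h1 : wN e (0 + j0 + 1) = m1 + 1)
    (h2 : wN e (0 + j0 + 1 + j1 + 1) = m2 + 1)
    (hN : (m1 + 1) * ((1 + 2 ^ j0).choose (2 ^ j0) - 1) +
      (m2 + 1) * ((m1 + 2 ^ j1).choose (2 ^ j1) - 1) + (m2 + 2 ^ j2).choose (2 ^ j2) < 65) :
    ¬ Fill e := by
  obtain ⟨Q, hQ0, hQ⟩ := exists_P3_rel (m1 := m1 + 1) (n1 := 2 ^ j0) (m2 := m2 + 1) (n2 := 2 ^ j1)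
    (n3 := 2 ^ j2) (N := 65) (by omega) (by
      have c1 := Pool.Agent.H124R3.card_sym 1 (2 ^ j0)
      have c2 := Pool.Agent.H124R3.card_sym m1 (2 ^ j1)
      have c3 := Pool.Agent.H124R3.card_sym m2 (2 ^ j2)
      rw [c2, c3]
      have c1' : Fintype.card (Sym (Fin 2) (2 ^ j0)) = (1 + 2 ^ j0).choose (2 ^ j0) := c1
      rw [c1']
      exact hN) (fun m => rho 64 m)
  refine not_fill_of_rel he0 he7 Q hQ0 fun W => ?_
  obtain ⟨α, β, γ, h⟩ := net_eq_P3 he0 h6 h1 h2 W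
  rw [h]
  exact hQ α β γ

/-- the widths -/
def dd : Fin (7 + 1) → ℕ := ![2, 3, 4, 5, 4, 6, 4, 1]

theorem nf1 : ¬ Fill ![2, 2, 4, 5, 4, 6, 4, 1] :=
  not_fill (j0 := 0) (j1 := 2) (j2 := 2) (m1 := 1) (m2 := 3) rfl (by decide) rfl rfl rfl (by decide)

theorem nf2 : ¬ Fill ![2, 3, 3, 5, 4, 6, 4, 1] :=
  not_fill (j0 := 1) (j1 := 1) (j2 := 2) (m1 := 2) (m2 := 3) rfl (by decide) rfl rfl rfl (by decide)

theorem nf3 : ¬ Fill ![2, 3, 4, 4, 4, 6, 4, 1] :=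
  not_fill (j0 := 2) (j1 := 0) (j2 := 2) (m1 := 3) (m2 := 3) rfl (by decide) rfl rfl rfl (by decide)

theorem nf4 : ¬ Fill ![2, 3, 4, 5, 3, 6, 4, 1] :=
  not_fill (j0 := 3) (j1 := 1) (j2 := 0) (m1 := 2) (m2 := 3) rfl (by decide) rfl rfl rfl (by decide)

theorem nf5 : ¬ Fill ![2, 3, 4, 5, 4, 5, 4, 1] :=
  not_fill (j0 := 3) (j1 := 0) (j2 := 1) (m1 := 3) (m2 := 4) rfl (by decide) rfl rfl rfl (by decide)

theorem nf6 : ¬ Fill ![2, 3, 4, 5, 4, 6, 3, 1] :=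
  not_fill (j0 := 3) (j1 := 1) (j2 := 0) (m1 := 3) (m2 := 2) rfl (by decide) rfl rfl rfl (by decide)

end Q49.PN
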